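import Mathlib

set_option autoImplicit false

namespace Pool.Agent.Results.MP_71efc4_nt.Counter

def sigma {G : Type} [AddCommGroup G] (A : Finset G) : Set G :=
  {g | ∃ B ⊆ A, ∑ b ∈ B, b = g}

def sigmaStar {G : Type} [AddCommGroup G] (A : Finset G) : Set G :=
  {g | ∃ B ⊆ A, B.Nonempty ∧ ∑ b ∈ B, b = g}

noncomputable def c0 (G : Type) [AddCommGroup G] : ℕ :=
  sInf {m | ∀ A : Finset G, (0 : G) ∉ A → m ≤ A.card → sigma A = Set.univ}

noncomputable def c (G : Type) [AddCommGroup G] : ℕ :=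
  sInf {m | ∀ A : Finset G, (0 : G) ∉ A → m ≤ A.card → sigmaStar A = Set.univ}

def IsP2 {G : Type} [AddCommGroup G] (A : Finset G) : Prop :=
  (0 : G) ∉ A ∧ A.card = c0 G - 1 ∧ sigma A ≠ Set.univ

def IsP4 {G : Type} [AddCommGroup G] (A : Finset G) : Prop :=
  (0 : G) ∉ A ∧ A.card = c G - 1 ∧ sigmaStar A ≠ Set.univ

theorem result : ¬ ∀ (G : Type) [AddCommGroup G] [Fintype G], 10 ≤ Fintype.card G →
    ∀ A : Finset G, IsP4 A → IsP2 A := by
  intro h
  have h5 : ∀ A ∈ (Finset.univ.erase (0 : ZMod 10)).powersetCard 5, ∀ g : ZMod 10,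
      ∃ B ∈ A.powerset, B.Nonempty ∧ ∑ b ∈ B, b = g := by decide +kernel
  have h0 : ∀ B ∈ ({1, 3, 4, 8} : Finset (ZMod 10)).powerset, B.Nonempty → ∑ b ∈ B, b ≠ 0 := by
    decide +kernel
  have h1 : ∀ g : ZMod 10, ∃ B ∈ ({1, 3, 4, 8} : Finset (ZMod 10)).powerset, ∑ b ∈ B, b = g := by
    decide +kernel
  have hne : sigmaStar ({1, 3, 4, 8} : Finset (ZMod 10)) ≠ Set.univ := by
    intro e
    have : (0 : ZMod 10) ∈ sigmaStar ({1, 3, 4, 8} : Finset (ZMod 10)) := e ▸ Set.mem_univ _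
    obtain ⟨B, hB, hn, hs⟩ := this
    exact h0 B (Finset.mem_powerset.2 hB) hn hs
  have hc : c (ZMod 10) = 5 := by
    refine IsLeast.csInf_eq ⟨fun A hA hm => Set.eq_univ_of_forall fun g => ?_, fun m hm => ?_⟩
    · obtain ⟨A', hA', hc⟩ := Finset.exists_subset_card_eq hm
      obtain ⟨B, hB, hn, hs⟩ := h5 A' (Finset.mem_powersetCard.2
        ⟨fun x hx => Finset.mem_erase.2 ⟨fun e => hA (e ▸ hA' hx), Finset.mem_univ _⟩, hc⟩) g
      exact ⟨B, (Finset.mem_powerset.1 hB).trans hA', hn, hs⟩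
    · by_contra hlt
      exact hne (hm _ (by decide) (by
        have : ({1, 3, 4, 8} : Finset (ZMod 10)).card = 4 := by decide
        omega))
  refine (h (ZMod 10) (by simp) {1, 3, 4, 8} ⟨by decide, by rw [hc]; decide, hne⟩).2.2 ?_
  refine Set.eq_univ_of_forall fun g => ?_
  obtain ⟨B, hB, hs⟩ := h1 g
  exact ⟨B, Finset.mem_powerset.1 hB, hs⟩

end Pool.Agent.Results.MP_71efc4_nt.Counter
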